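import Mathlib
import Pool.Agent.Work.MP_68e044_gt.Defs
import Pool.Agent.Work.MP_68e044_gt.Assembly

namespace Pool.Agent.Results.MP_68e044_gt.PowersOfClosureSequences

open Pool.Agent.Work.MP_68e044_gt

/-- For every closure sequence `w` and every positive integer `m` the word `w ^ m` is a closure
sequence. -/
theorem result :
    ∀ w : List Letter, IsClosureSeq w → ∀ m : ℕ, 1 ≤ m → IsClosureSeq (wordPow w m) :=
  fun w hw m hm => main w hw m hm

end Pool.Agent.Results.MP_68e044_gt.PowersOfClosureSequences
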